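import Mathlib
import Pool.Agent.Helper27.KLPair
import Pool.Agent.Helper27.KLSet
import Pool.Agent.Helper27.KLFull

set_option autoImplicit false

namespace Pool.Agent.Results.MP_aa61ff_co.Full

open Pool.Agent.Helper27.KL Pool.Agent.Helper27.KLFull

/-- There is a loopless matroid `M` (of rank 7, on a finite set) whose inverse Kazhdan-Lusztig
polynomial `a_0 + a_1 t + a_2 t ^ 2 + a_3 t ^ 3` (of degree 3) has `a_2 ^ 2 < a_1 a_3`: the inverse
Kazhdan-Lusztig family of the intervals `[F, G]` of the lattice of flats of `M` exists, and each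
such family has this property for `[cl ∅, E]`. -/
theorem result :
    ∃ (n : ℕ) (M : Matroid (Fin n)), M.E = Set.univ ∧ M.closure ∅ = ∅ ∧
      (∃ Q, IsInverseKL M Q) ∧
      ∀ Q, IsInverseKL M Q → ∀ F G : Flats M, (F.1 : Set (Fin n)) = M.closure ∅ →
        (G.1 : Set (Fin n)) = M.E →
        (Q F G).natDegree = 3 ∧
        (Q F G).coeff 2 ^ 2 < (Q F G).coeff 1 * (Q F G).coeff 3 := by
  classical
  let n := Fintype.card {v : V7 // v ∉ SS}
  let φ : Fin n → V7 := fun i => ((Fintype.equivFin {v : V7 // v ∉ SS}).symm i).1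
  have hφ : Set.range φ = SSᶜ := by
    ext v
    constructor
    · rintro ⟨i, rfl⟩
      exact ((Fintype.equivFin {v : V7 // v ∉ SS}).symm i).2
    · intro hv
      refine ⟨Fintype.equivFin {v : V7 // v ∉ SS} ⟨v, hv⟩, ?_⟩
      simp [φ]
  have hcl : (linMat F7 φ).closure ∅ = ∅ := by
    have := (flat_empty hφ zero_mem_SS hspan7).closure
    rwa [Finset.coe_empty] at this
  have hQQ : IsInverseKL (linMat F7 φ) (fun F G => QQ F7 φ SS F.1 G.1) :=
    isInverseKL_of_pair (linMat F7 φ) (linMat_E φ) (PP F7 φ SS) (QQ F7 φ SS)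
      (fun F _ => hyp1 hφ zero_mem_SS hspan7 F)
      (fun F G hF hG hFG => hyp2 hφ zero_mem_SS hspan7 F G hF hG hFG)
  refine ⟨n, linMat F7 φ, linMat_E φ, hcl, ⟨_, hQQ⟩, ?_⟩
  intro Q hQ F G hF hG
  have hF' : F.1 = ∅ := by
    rw [hcl] at hF
    exact_mod_cast hF
  have hG' : G.1 = Finset.univ := by
    rw [linMat_E] at hG
    exact_mod_cast hG
  have hFG : F ≤ G := by
    change F.1 ⊆ G.1
    rw [hF']
    exact Finset.empty_subset _
  have htop : ¬ Bad SS (⊤ : Submodule F7 V7) := by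
    intro hb
    have := finrank_le_of_bad ⊤ hb
    rw [finrank_top, Module.finrank_fin_fun] at this
    omega
  have hfl : fl φ (⊤ : Submodule F7 V7) = Finset.univ := by
    ext e
    simp [mem_fl]
  have hsp : sp F7 φ Finset.univ = ⊤ := by
    rw [← hfl]
    exact sp_fl hφ zero_mem_SS hspan7 htop
  have hne : (Finset.univ : Finset (Fin n)) ≠ ∅ := by
    rw [← hfl]
    exact fl_nonempty hφ zero_mem_SS hspan7 htop
  have hlt : F < G := by
    refine lt_of_le_of_ne hFG fun h => hne ?_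
    rw [← hG', ← h, hF']
  have hQ1 : Q F G = QPol SS (⊤ : Submodule F7 V7) := by
    rw [unique hQ hQQ F G hFG, hF', hG', QQ, if_pos rfl, if_neg hne, hsp]
  obtain ⟨c1, c2, c3⟩ := coeffs (K := F7) (V := V7) (ZMod.card 7) (Module.finrank_fin_fun F7)
    SS finrank_le_of_bad
  have h3 := W1
  have h4 : (Q F G).coeff 2 ^ 2 < (Q F G).coeff 1 * (Q F G).coeff 3 := by
    rw [hQ1, c1, c2, c3, W2, W3]
    norm_num at h3 ⊢
    omega
  refine ⟨?_, h4⟩
  have h5 := hQ.degree F G hlt
  have h6 : rk (linMat F7 φ) G = 7 := by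
    rw [rk, hG', rk_eq, hsp, finrank_top, Module.finrank_fin_fun]
  have h7 : (Q F G).coeff 3 ≠ 0 := by
    intro h
    rw [h, mul_zero] at h4
    exact absurd h4 (not_lt.2 (sq_nonneg _))
  have h8 := Polynomial.le_natDegree_of_ne_zero h7
  omega

end Pool.Agent.Results.MP_aa61ff_co.Full
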